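import Pool.Agent.Q31.GLW.Stm

/-!
# ADD: adding one pair to a condition
-/

set_option autoImplicit false

namespace Pool.Agent.Q65.GLW

open Module Cardinal Submodule Pool.Agent.Q31.GLW

/-- one pair `(x, y)` is added -/
lemma add_pair {F V : Type} [Field F] [AddCommGroup V] [Module F V] (U : Submodule F V)
    (g : U ≃ₗ[F] U) (p : V →ₗ.[F] V) (x y : V) (hp : Cond U g p) (hx : x ∉ p.domain)
    (hy : y ∉ LinearMap.range p.toFun) :
    ∃ q : V →ₗ.[F] V, Cond U g q ∧ p ≤ q ∧ q.domain = p.domain ⊔ span F {x} ∧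
      LinearMap.range q.toFun = LinearMap.range p.toFun ⊔ span F {y} ∧
      ∃ z : q.domain, (z : V) = x ∧ q z = y := by
  obtain ⟨hinj, ⟨E, hE, hdom⟩, hext⟩ := hp
  have hle : p ≤ p.supSpanSingleton x y hx := LinearPMap.left_le_sup _ _ _
  have hmem : ∀ z : (p.supSpanSingleton x y hx).domain, ∃ (x' : V) (hx' : x' ∈ p.domain) (c : F),
      (z : V) = x' + c • x ∧ p.supSpanSingleton x y hx z = p ⟨x', hx'⟩ + c • y := by
    rintro ⟨z, hz⟩
    have hz' : z ∈ p.domain ⊔ span F {x} := hz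
    obtain ⟨x', hx', w, hw, rfl⟩ := mem_sup.1 hz'
    obtain ⟨c, rfl⟩ := mem_span_singleton.1 hw
    exact ⟨x', hx', c, rfl, LinearPMap.supSpanSingleton_apply_mk p x y hx x' hx' c⟩
  refine ⟨p.supSpanSingleton x y hx, ⟨?_, ?_, ?_⟩, hle, rfl, ?_, ?_⟩
  · intro z hz
    obtain ⟨x', hx', c, h1, h2⟩ := hmem z
    rw [h2] at hz
    have hc : c = 0 := by
      by_contra hc
      apply hy
      have h3 : y = p ⟨-(c⁻¹ • x'), p.domain.neg_mem (p.domain.smul_mem _ hx')⟩ := by
        have h4 : (⟨-(c⁻¹ • x'), p.domain.neg_mem (p.domain.smul_mem _ hx')⟩ : p.domain) =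
            -(c⁻¹ • ⟨x', hx'⟩) := rfl
        rw [h4, LinearPMap.map_neg, LinearPMap.map_smul, eq_neg_of_add_eq_zero_left hz, smul_neg,
          neg_neg, smul_smul, inv_mul_cancel₀ hc, one_smul]
      rw [h3]
      exact ⟨_, rfl⟩
    subst hc
    rw [zero_smul, add_zero] at hz
    rw [h1, zero_smul, add_zero]
    exact hinj _ hz
  · refine ⟨E ⊔ span F {x}, inferInstance, ?_⟩
    rw [LinearPMap.domain_supSpanSingleton, hdom, sup_assoc]
  · intro u z hz
    have hu : (u : V) ∈ p.domain := by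
      rw [hdom]
      exact mem_sup_left u.2
    have h1 := hext u ⟨u, hu⟩ rfl
    rw [← h1]
    exact (hle.2 hz.symm).symm
  · apply le_antisymm
    · rintro _ ⟨z, rfl⟩
      obtain ⟨x', hx', c, h1, h2⟩ := hmem z
      change p.supSpanSingleton x y hx z ∈ _
      rw [h2]
      exact add_mem (mem_sup_left ⟨_, rfl⟩)
        (mem_sup_right (smul_mem _ _ (mem_span_singleton_self y)))
    · apply sup_le
      · rintro _ ⟨z, rfl⟩
        have h1 : (z : V) ∈ (p.supSpanSingleton x y hx).domain := mem_sup_left z.2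
        exact ⟨⟨z, h1⟩, (hle.2 (x := z) (y := ⟨z, h1⟩) rfl).symm⟩
      · rw [span_singleton_le_iff_mem]
        exact ⟨_, LinearPMap.supSpanSingleton_apply_self p y hx⟩
  · exact ⟨_, rfl, LinearPMap.supSpanSingleton_apply_self p y hx⟩

/-- **ADD.** -/
theorem t_ADD : S_ADD := by
  intro F V _ _ _ U g p e a z hp ha hz
  cases e with
  | true =>
    obtain ⟨q, h1, h2, h3, h4, w, h5, h6⟩ := add_pair U g p a z hp ha hz
    refine ⟨q, h1, h2, h3, h4, fun h hh => ?_⟩
    change h a = z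
    rw [← h5, hh w, h6]
  | false =>
    obtain ⟨q, h1, h2, h3, h4, w, h5, h6⟩ := add_pair U g p z a hp hz ha
    refine ⟨q, h1, h2, h4, h3, fun h hh => ?_⟩
    change h⁻¹ a = z
    have h7 : h z = a := by rw [← h5, hh w, h6]
    rw [← h7]
    exact h.symm_apply_apply z

end Pool.Agent.Q65.GLW
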