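import Pool.Agent.Q31.GLW.Stm

/-!
# DN: the density of the conditions that force `v + c • y` into the range form
-/

set_option autoImplicit false

namespace Pool.Agent.Q65.GLW

open Module Cardinal Submodule Pool.Agent.Q31.GLW

/-- **DN.** -/
theorem t_DN (hIND : S_IND) (hICS : S_ICS) (hPATH : S_PATH) : S_DN := by
  intro F V _ _ _ U g hU k e M hk hM hcyc c v hc p hp
  obtain ⟨hrd, hlast⟩ := hcyc
  have hZ : IC (side p true ⊔ side p false ⊔ span F {v}) :=
    hICS F V U g p (span F {v}) hU hp inferInstance
  set Z : Submodule F V := side p true ⊔ side p false ⊔ span F {v} with hZdef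
  have hside : ∀ b : Bool, side p b ≤ Z := by
    intro b
    cases b with
    | true => exact le_sup_of_le_left le_sup_left
    | false => exact le_sup_of_le_left le_sup_right
  have hv : v ∈ Z := mem_sup_right (mem_span_singleton_self v)
  obtain ⟨y, hy1, hy2, hy3⟩ : ∃ y : V, y ∉ Z ∧ k y ∉ Z ∧
      (e = lastE e M ∨ v + c • y ∉ side p (!(lastE e M)) ⊔ span F {k y}) := by
    by_cases hs : Sc k
    · obtain ⟨d, hd⟩ := hs
      have he : e = lastE e M := by
        rcases hlast with h | h
        · exact h
        · exact absurd ⟨d, hd⟩ h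
      have hne : ∃ y : V, y ∉ Z := by
        by_contra hcon
        push Not at hcon
        apply hZ
        have htop : Z = ⊤ := eq_top_iff.2 fun x _ => hcon x
        rw [htop]
        infer_instance
      obtain ⟨y, hy⟩ := hne
      refine ⟨y, hy, fun h => ?_, Or.inl he⟩
      rw [hd y] at h
      have hd0 : d ≠ 0 := by
        rintro rfl
        have h1 : k y = 0 := by rw [hd y, zero_smul]
        have h2 : y = 0 := by
          have := k.map_eq_zero_iff.1 h1
          exact this
        exact hy (h2 ▸ Z.zero_mem)
      exact hy ((Z.smul_mem_iff hd0).1 h)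
    · obtain ⟨y, hy⟩ := hIND F V k Z hs hk hZ
      refine ⟨y, fun h => ?_, fun h => ?_, Or.inr fun h => ?_⟩
      · have := hy 1 0 (by simpa using h)
        exact one_ne_zero this.1
      · have := hy 0 1 (by simpa using h)
        exact one_ne_zero this.2
      · obtain ⟨w, hw, u, hu, hwu⟩ := mem_sup.1 h
        obtain ⟨b, rfl⟩ := mem_span_singleton.1 hu
        have h1 : c • y + (-b) • k y = w - v := by
          have h2 : c • y = w + b • k y - v := by rw [hwu]; abel
          rw [h2, neg_smul]; abel
        have h3 : c • y + (-b) • k y ∈ Z := by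
          rw [h1]
          exact sub_mem (hside _ hw) hv
        exact hc (hy c (-b) h3).1
  have hs : v + c • y ∉ side p (!(lastE e M)) := fun h =>
    hy1 ((Z.smul_mem_iff hc).1 ((Submodule.add_mem_iff_right Z hv).1 (hside _ h)))
  obtain ⟨q, hq1, hq2, hq3⟩ := hPATH F V U g hU M k e p (k y) (v + c • y) hM hrd hp
    (fun h => hy2 (hside _ h)) hs hy3
  refine ⟨q, hq1, hq2, fun h hh => ⟨y, ?_⟩⟩
  rw [← hq3 h hh]
  rfl

end Pool.Agent.Q65.GLW
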